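import Mathlib
import Pool.Agent.Helper19.CP.Spec

set_option autoImplicit false

namespace Pool.Agent.Helper50.CP

open Matrix

/-- Hilbert 90 for `GL_n`, for a finite group `G` with a map to the automorphisms which is
injective. -/
theorem hilbert90 {L G n : Type*} [Field L] [Group G] [Fintype G] [Fintype n] [DecidableEq n]
    (ρ : G → L →+* L) (hm : ∀ σ τ, ρ (σ * τ) = (ρ σ).comp (ρ τ)) (hρ : Function.Injective ρ)
    (A : G → Matrix n n L)
    (hA : ∀ σ, (A σ).det ≠ 0) (hc : ∀ σ τ, A (σ * τ) = A σ * (A τ).map (ρ σ)) :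
    ∃ B : Matrix n n L, B.det ≠ 0 ∧ ∀ σ, A σ * B.map (ρ σ) = B := by
  classical
  -- the average of a matrix
  let av : Matrix n n L → Matrix n n L := fun V => ∑ σ, A σ * V.map (ρ σ)
  have hav : ∀ V τ, A τ * (av V).map (ρ τ) = av V := by
    intro V τ
    have h1 : (av V).map (ρ τ) = ∑ σ, (A σ).map (ρ τ) * V.map (ρ (τ * σ)) := by
      have h2 : (av V).map (ρ τ) = (ρ τ).mapMatrix (av V) := rfl
      rw [h2]
      simp only [av, map_sum, map_mul]
      refine Finset.sum_congr rfl fun σ _ => ?_
      congr 1
      rw [hm]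
      rfl
    rw [h1, Finset.mul_sum]
    have h3 : ∀ σ, A τ * ((A σ).map (ρ τ) * V.map (ρ (τ * σ))) =
        A (τ * σ) * V.map (ρ (τ * σ)) := fun σ => by rw [← mul_assoc, ← hc]
    rw [Finset.sum_congr rfl fun σ _ => h3 σ]
    exact Fintype.sum_equiv (Equiv.mulLeft τ) _ _ fun σ => rfl
  -- the span of the averages of vectors
  let w : (n → L) → (n → L) := fun v => ∑ σ, (A σ).mulVec (fun i => ρ σ (v i))
  have hspan : Submodule.span L (Set.range w) = ⊤ := by
    by_contra hne
    obtain ⟨φ, hφ, hφ'⟩ := Submodule.exists_le_ker_of_lt_top _ (lt_top_iff_ne_top.2 hne)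
    apply hφ
    have hz : ∀ v, φ (w v) = 0 := fun v => hφ' (Submodule.subset_span ⟨v, rfl⟩)
    -- the row vector
    let u : n → L := fun i => φ (Pi.single i 1)
    have hu : ∀ x : n → L, φ x = ∑ i, u i * x i := by
      intro x
      conv_lhs => rw [show x = ∑ i, x i • (Pi.single i (1 : L) : n → L) from by
        ext j; simp [Finset.sum_apply, Pi.single_apply]]
      rw [map_sum]
      refine Finset.sum_congr rfl fun i _ => ?_
      rw [map_smul, smul_eq_mul, mul_comm]
    have hrow : ∀ σ j, ∑ i, u i * A σ i j = 0 := by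
      intro σ j
      have hind := linearIndependent_monoidHom L L
      have hinj : Function.Injective fun σ : G => ((ρ σ : L →+* L) : L →* L) := by
        intro a b hab
        apply hρ
        ext x
        exact DFunLike.congr_fun hab x
      have hind2 := hind.comp _ hinj
      rw [Fintype.linearIndependent_iff] at hind2
      refine hind2 (fun σ => ∑ i, u i * A σ i j) ?_ σ
      ext x
      have h4 := hz (Pi.single j x)
      rw [hu] at h4
      simp only [w, Finset.sum_apply, Matrix.mulVec, dotProduct] at h4
      rw [Finset.sum_apply]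
      simp only [Function.comp, Pi.smul_apply, smul_eq_mul, Pi.zero_apply, Finset.sum_mul]
      rw [← h4]
      simp only [Finset.mul_sum]
      rw [Finset.sum_comm]
      refine Finset.sum_congr rfl fun i _ => Finset.sum_congr rfl fun τ _ => ?_
      rw [Finset.sum_eq_single j]
      · simp [mul_assoc]
      · intro k _ hk
        simp [hk]
      · intro h; exact absurd (Finset.mem_univ _) h
    have hu0 : u = 0 := by
      have h5 : Matrix.vecMul u (A 1) = 0 := by
        ext j
        simpa [Matrix.vecMul, dotProduct] using hrow 1 j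
      by_contra hu0
      exact hA 1 (Matrix.exists_vecMul_eq_zero_iff.1 ⟨u, hu0, h5⟩)
    ext x
    simp [u] at hu0
    have := congrFun hu0 x
    simpa using this
  -- choose a basis among the averages
  obtain ⟨b, hb, hbs, hbi⟩ := exists_linearIndependent L (Set.range w)
  have hbt : Submodule.span L b = ⊤ := by rw [hbs, hspan]
  let bas : Module.Basis b L (n → L) := Module.Basis.mk hbi (by simp [hbt])
  have hcard : Nonempty (n ≃ b) := by
    have e := (Pi.basisFun L n).indexEquiv bas
    exact ⟨e⟩
  obtain ⟨e⟩ := hcard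
  have hch : ∀ j : n, ∃ v, w v = (e j : n → L) := fun j => hb (e j).2
  choose v hv using hch
  let V : Matrix n n L := fun i j => v j i
  have hV : ∀ i j, av V i j = (e j : n → L) i := by
    intro i j
    rw [← hv j]
    simp only [av, w, V, Matrix.sum_apply, Finset.sum_apply, Matrix.mul_apply, Matrix.mulVec,
      dotProduct, Matrix.map_apply]
  refine ⟨av V, ?_, fun σ => hav V σ⟩
  have hli : LinearIndependent L (fun j : n => (e j : n → L)) := hbi.comp _ e.injective
  intro hdet
  obtain ⟨c, hc0, hcz⟩ := Matrix.exists_mulVec_eq_zero_iff.2 hdet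
  apply hc0
  have h6 : ∑ j, c j • (e j : n → L) = 0 := by
    ext i
    have := congrFun hcz i
    simp only [Matrix.mulVec, dotProduct, Pi.zero_apply] at this
    rw [Finset.sum_apply, Pi.zero_apply, ← this]
    refine Finset.sum_congr rfl fun j _ => ?_
    rw [Pi.smul_apply, smul_eq_mul, ← hV i j, mul_comm]
  ext j
  exact Fintype.linearIndependent_iff.1 hli c h6 j

end Pool.Agent.Helper50.CP

namespace Pool.Agent.Helper50.CP.H90

theorem main : Pool.Agent.Helper19.CP.S_H90 := by
  intro L _ P _ _ s _ hm hi m φ hφ hc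
  have := Fintype.ofFinite P
  exact Pool.Agent.Helper50.CP.hilbert90 s hm hi φ hφ hc

end Pool.Agent.Helper50.CP.H90

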