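import Pool.Agent.Helper19.CP.Spec
import Pool.Graph.R_pool_sql_team_seeded_64922ed1.Results.MP_2619d0_ag.FieldOfDefinition

set_option autoImplicit false

namespace Pool.Agent.Helper50.CP.NO2

open MvPolynomial Pool.Agent.Helper19.CP
open Pool.Agent.Results.MP_2619d0_ag.FieldOfDefinition (expo expo_injective OnlyEven mapDegree
  extensionDegree)

theorem degree_expo {n : ℕ} (i : Fin (n + 2)) : (expo i : Fin (n + 2) →₀ ℕ).degree = 3 := by
  rw [expo, map_add, Finsupp.degree_single, Finsupp.degree_single]

/-- the coefficients besides those of `x_0 x_i ^ 2` -/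
def others {n : ℕ} (F : MvPolynomial (Fin (n + 2)) ℂ) : Set ℂ :=
  (fun α : {α : Fin (n + 2) →₀ ℕ // α.degree = 3} => F.coeff α.1) ''
    {α | ∀ i : Fin (n + 2), α.1 ≠ expo i}

theorem indep {n : ℕ} {F : MvPolynomial (Fin (n + 2)) ℂ} (hF : Generic F) :
    AlgebraicIndependent (Subfield.closure (others F))
      (fun i : Fin (n + 2) => F.coeff (expo i)) := by
  have h1 := hF.2.adjoin_of_disjoint
    (s := {α | ∀ i : Fin (n + 2), α.1 ≠ expo i})
    (t := {α | ∃ i : Fin (n + 2), α.1 = expo i}) (by
      rw [Set.disjoint_left]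
      rintro α h ⟨i, hi⟩
      exact h i hi)
  have h2 := h1.comp (fun i : Fin (n + 2) => ⟨⟨expo i, degree_expo i⟩, ⟨i, rfl⟩⟩) (by
    intro i j h
    exact expo_injective (congrArg (fun z => z.1.1) h))
  have h3 : AlgebraicIndependent (Algebra.adjoin ℚ (others F))
      (fun i : Fin (n + 2) => F.coeff (expo i)) := h2
  have hle : ∀ x ∈ Algebra.adjoin ℚ (others F), x ∈ Subfield.closure (others F) := by
    intro x hx
    induction hx using Algebra.adjoin_induction with
    | mem x h => exact Subfield.subset_closure h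
    | algebraMap r => exact SubfieldClass.ratCast_mem _ r
    | add x y _ _ h1 h2 => exact add_mem h1 h2
    | mul x y _ _ h1 h2 => exact mul_mem h1 h2
  let _ : Algebra (Algebra.adjoin ℚ (others F)) (Subfield.closure (others F)) :=
    RingHom.toAlgebra
      { toFun := fun x => ⟨x.1, hle x.1 x.2⟩
        map_one' := rfl
        map_mul' := fun _ _ => rfl
        map_zero' := rfl
        map_add' := fun _ _ => rfl }
  have : IsScalarTower (Algebra.adjoin ℚ (others F)) (Subfield.closure (others F)) ℂ :=
    IsScalarTower.of_algebraMap_eq fun _ => rfl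
  have hal : Algebra.IsAlgebraic (Algebra.adjoin ℚ (others F)) (Subfield.closure (others F)) := by
    constructor
    rintro ⟨y, hy⟩
    rw [← isAlgebraic_algHom_iff (IsScalarTower.toAlgHom (Algebra.adjoin ℚ (others F))
      (Subfield.closure (others F)) ℂ) Subtype.val_injective]
    change IsAlgebraic _ y
    induction hy using Subfield.closure_induction with
    | mem x h =>
      exact isAlgebraic_algebraMap (⟨x, Algebra.subset_adjoin h⟩ : Algebra.adjoin ℚ (others F))
    | one => exact isAlgebraic_one
    | add x y _ _ h1 h2 => exact h1.add h2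
    | neg x _ h => exact h.neg
    | inv x _ h => exact h.inv
    | mul x y _ _ h1 h2 => exact h1.mul h2
  exact h3.extendScalars _

theorem main : S_NO2 := by
  intro n D F K'' G hn hF hK hodd hG hov
  have hle : Subfield.closure (others F) ≤ K'' := by
    refine le_trans ?_ hK
    rw [Subfield.closure_le]
    rintro _ ⟨α, -, rfl⟩
    exact Subfield.subset_closure ⟨α.1, rfl⟩
  have hcoef : ∀ α, F.coeff α ∈ K'' := fun α => hK (Subfield.subset_closure ⟨α, rfl⟩)
  have h1 : OnlyEven (Subfield.closure (others F)) (fun i : Fin (n + 2) => F.coeff (expo i)) F := by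
    refine Pool.Agent.Results.MP_2619d0_ag.FieldOfDefinition.result.2 n hn _ F hF.1 ?_ (indep hF)
    intro α hα
    by_cases hd : α.degree = 3
    · exact Subfield.subset_closure ⟨⟨α, hd⟩, hα, rfl⟩
    · have h0 : F.coeff α = 0 := hF.1.coeff_eq_zero hd
      rw [h0]
      exact zero_mem _
  have h2 := (h1 (Subfield.extendScalars hle) (fun i => hcoef _)).1 1 G (fun _ => X 0)
    (fun _ => 1) (fun i => hov i) (fun _ α => by
      rw [MvPolynomial.coeff_X]
      split_ifs
      · exact one_mem _
      · exact zero_mem _) (fun _ α => by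
      rw [MvPolynomial.coeff_one]
      split_ifs
      · exact one_mem _
      · exact zero_mem _) ⟨hG.zero, hG.dom⟩
  rw [mapDegree, extensionDegree] at h2
  have htop : (IntermediateField.adjoin ℂ ({z : FractionRing (MvPolynomial (Fin (n + 1)) ℂ) |
      ∃ i j, z = algebraMap (MvPolynomial (Fin (n + 1)) ℂ)
        (FractionRing (MvPolynomial (Fin (n + 1)) ℂ)) (G i) /
        algebraMap (MvPolynomial (Fin (n + 1)) ℂ) (FractionRing (MvPolynomial (Fin (n + 1)) ℂ))
        (G j)} ∪ Set.range fun _ : Fin 1 =>
      algebraMap (MvPolynomial (Fin (n + 1)) ℂ) (FractionRing (MvPolynomial (Fin (n + 1)) ℂ)) (X 0) /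
      algebraMap (MvPolynomial (Fin (n + 1)) ℂ) (FractionRing (MvPolynomial (Fin (n + 1)) ℂ)) 1)) =
      ⊤ := by
    set T := (IntermediateField.adjoin ℂ ({z : FractionRing (MvPolynomial (Fin (n + 1)) ℂ) |
      ∃ i j, z = algebraMap (MvPolynomial (Fin (n + 1)) ℂ)
        (FractionRing (MvPolynomial (Fin (n + 1)) ℂ)) (G i) /
        algebraMap (MvPolynomial (Fin (n + 1)) ℂ) (FractionRing (MvPolynomial (Fin (n + 1)) ℂ))
        (G j)} ∪ Set.range fun _ : Fin 1 =>
      algebraMap (MvPolynomial (Fin (n + 1)) ℂ) (FractionRing (MvPolynomial (Fin (n + 1)) ℂ)) (X 0) /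
      algebraMap (MvPolynomial (Fin (n + 1)) ℂ) (FractionRing (MvPolynomial (Fin (n + 1)) ℂ)) 1))
      with hT
    have h0 : algebraMap (MvPolynomial (Fin (n + 1)) ℂ)
        (FractionRing (MvPolynomial (Fin (n + 1)) ℂ)) (X 0) ∈ T := by
      have h3 : algebraMap (MvPolynomial (Fin (n + 1)) ℂ)
          (FractionRing (MvPolynomial (Fin (n + 1)) ℂ)) (X 0) /
          algebraMap (MvPolynomial (Fin (n + 1)) ℂ)
          (FractionRing (MvPolynomial (Fin (n + 1)) ℂ)) 1 ∈ T :=
        IntermediateField.subset_adjoin ℂ _ (Or.inr ⟨0, rfl⟩)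
      rwa [map_one, div_one] at h3
    have hr : ratios G ≤ T := by
      rw [ratios, IntermediateField.adjoin_le_iff]
      intro z hz
      exact IntermediateField.subset_adjoin ℂ _ (Or.inl hz)
    have hX : ∀ i, algebraMap (MvPolynomial (Fin (n + 1)) ℂ)
        (FractionRing (MvPolynomial (Fin (n + 1)) ℂ)) (X i) ∈ T := by
      intro i
      have h4 := mul_mem (hr (hG.bir i 0)) h0
      rwa [div_mul_cancel₀] at h4
      intro h5
      exact X_ne_zero (0 : Fin (n + 1)) (IsFractionRing.injective (MvPolynomial (Fin (n + 1)) ℂ)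
        (FractionRing (MvPolynomial (Fin (n + 1)) ℂ)) (by rw [map_zero]; exact h5))
    rw [eq_top_iff, ← Pool.Agent.X328.FD.tf_top, IntermediateField.adjoin_le_iff]
    rintro _ ⟨i, rfl⟩
    exact hX i
  rw [htop, IntermediateField.finrank_top, mul_one] at h2
  apply hodd
  rw [← even_iff_two_dvd]
  have hcf : coefField F = (IntermediateField.adjoin (Subfield.closure (others F))
      (Set.range fun i : Fin (n + 2) => F.coeff (expo i))).toSubfield := by
    apply le_antisymm
    · rw [coefField, Subfield.closure_le]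
      rintro _ ⟨α, rfl⟩
      by_cases hα : ∀ i : Fin (n + 2), α ≠ expo i
      · by_cases hd : α.degree = 3
        · exact (IntermediateField.adjoin _ _).algebraMap_mem
            (⟨F.coeff α, Subfield.subset_closure ⟨⟨α, hd⟩, hα, rfl⟩⟩ : Subfield.closure (others F))
        · have h0 : F.coeff α = 0 := hF.1.coeff_eq_zero hd
          change F.coeff α ∈ _
          rw [h0]
          exact zero_mem _
      · push Not at hα
        obtain ⟨i, rfl⟩ := hα
        exact IntermediateField.subset_adjoin _ _ ⟨i, rfl⟩
    · intro x hx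
      change x ∈ IntermediateField.adjoin _ _ at hx
      have hle2 : Subfield.closure (others F) ≤ coefField F := by
        rw [Subfield.closure_le]
        rintro _ ⟨α, -, rfl⟩
        exact Subfield.subset_closure ⟨α.1, rfl⟩
      have h6 : IntermediateField.adjoin (Subfield.closure (others F))
          (Set.range fun i : Fin (n + 2) => F.coeff (expo i)) ≤ Subfield.extendScalars hle2 := by
        rw [IntermediateField.adjoin_le_iff]
        rintro _ ⟨i, rfl⟩
        exact Subfield.subset_closure ⟨expo i, rfl⟩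
      exact h6 hx
  rw [hcf]
  exact h2

end Pool.Agent.Helper50.CP.NO2
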